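import Pool.Agent.MinExt.Quant

set_option autoImplicit false

namespace Pool.Agent.Results.MP_49bdf6_an.SequenceExtension

/-- The closed linear span `[x]` of a sequence. -/
def closedSpan (𝕜 : Type*) [RCLike 𝕜] {E : Type*} [NormedAddCommGroup E] [NormedSpace 𝕜 E]
    (x : ℕ → E) : Submodule 𝕜 E :=
  (Submodule.span 𝕜 (Set.range x)).topologicalClosure

/-- `φ` is the sequence of associated functionals of `x`: every `φ n` is a continuous linear
functional on `[x]`, and `φ i (x j)` is `1` for `i = j` and `0` otherwise. -/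
def Associated {𝕜 : Type*} [RCLike 𝕜] {E : Type*} [NormedAddCommGroup E] [NormedSpace 𝕜 E]
    (x : ℕ → E) (φ : ℕ → closedSpan 𝕜 x →L[𝕜] 𝕜) : Prop :=
  ∀ (i j : ℕ) (v : closedSpan 𝕜 x), (v : E) = x j → φ i v = if i = j then 1 else 0

/-- `x` is minimal: no term lies in the closed linear span of the other terms. -/
def Minimal (𝕜 : Type*) [RCLike 𝕜] {E : Type*} [NormedAddCommGroup E] [NormedSpace 𝕜 E]
    (x : ℕ → E) : Prop :=
  ∀ n : ℕ, x n ∉ (Submodule.span 𝕜 (x '' {k | k ≠ n})).topologicalClosure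

/-- Let `x` be a sequence in a separable normed space which has associated functionals with norms
at most `D`. Then `x` is a subsequence (positions `σ`) of a minimal complete sequence `z` with
biorthogonal functionals `g`, uniformly bounded, the new vectors being bounded too. If `[x]` has
infinite codimension, then all new vectors have norm at most 41, their functionals have norm at
most 3 and the functionals of the old vectors have norm at most `24 D + 12`. -/
theorem result {𝕜 : Type*} [RCLike 𝕜] {E : Type*} [NormedAddCommGroup E] [NormedSpace 𝕜 E]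
    [TopologicalSpace.SeparableSpace E] (x : ℕ → E) (D : ℝ)
    (φ : ℕ → closedSpan 𝕜 x →L[𝕜] 𝕜) (hφ : Associated x φ) (hD : ∀ n, ‖φ n‖ ≤ D) :
    ∃ (z : ℕ → E) (σ : ℕ → ℕ) (g : ℕ → E →L[𝕜] 𝕜) (B : ℝ),
      Function.Injective σ ∧ (∀ n, z (σ n) = x n) ∧
      Minimal 𝕜 z ∧ closedSpan 𝕜 z = ⊤ ∧
      (∀ i j, g i (z j) = if i = j then 1 else 0) ∧
      (∀ m, ‖g m‖ ≤ B) ∧ (∀ m, m ∉ Set.range σ → ‖z m‖ ≤ B) ∧
      (¬ FiniteDimensional 𝕜 (E ⧸ closedSpan 𝕜 x) →
        (∀ n, ‖g (σ n)‖ ≤ 24 * D + 12) ∧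
        ∀ m, m ∉ Set.range σ → ‖z m‖ ≤ 41 ∧ ‖g m‖ ≤ 3) := by
  classical
  have hmem : ∀ n, x n ∈ closedSpan 𝕜 x := fun n =>
    Submodule.le_topologicalClosure _ (Submodule.subset_span ⟨n, rfl⟩)
  -- Hahn-Banach extensions
  choose f hf1 hf2 using fun n => exists_extension_norm_eq (closedSpan 𝕜 x) (φ n)
  have hbi : ∀ n k, f n (x k) = if n = k then 1 else 0 := by
    intro n k
    have h1 := hf1 n ⟨x k, hmem k⟩
    have h2 := hφ n k ⟨x k, hmem k⟩ rfl
    rw [h2] at h1
    exact h1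
  have hfD : ∀ n, ‖f n‖ ≤ D := fun n => by rw [hf2 n]; exact hD n
  -- the pairs, in both cases
  have key : ∃ (P : Set (E × (E →L[𝕜] 𝕜))) (h : ℕ → E →L[𝕜] 𝕜) (B : ℝ), P.Countable ∧
      (∀ n k, h n (x k) = if n = k then 1 else 0) ∧
      (∀ n, ∀ p ∈ P, h n p.1 = 0 ∧ p.2 (x n) = 0) ∧
      (∀ p ∈ P, p.2 p.1 = 1) ∧ (∀ p ∈ P, ∀ q ∈ P, p ≠ q → p.2 q.1 = 0) ∧
      (∀ n, ‖h n‖ ≤ B) ∧ (∀ p ∈ P, ‖p.1‖ ≤ B ∧ ‖p.2‖ ≤ B) ∧
      (Submodule.span 𝕜 (Set.range x ∪ Prod.fst '' P)).topologicalClosure = ⊤ ∧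
      (¬ FiniteDimensional 𝕜 (E ⧸ closedSpan 𝕜 x) →
        (∀ n, ‖h n‖ ≤ 24 * D + 12) ∧ ∀ p ∈ P, ‖p.1‖ ≤ 41 ∧ ‖p.2‖ ≤ 3) := by
    by_cases hfin : FiniteDimensional 𝕜 (E ⧸ closedSpan 𝕜 x)
    · obtain ⟨P, C', D', h, h0, h1, h2, h3, h4, h5, h6, h7⟩ :=
        Pool.Agent.MinExt.main (𝕜 := 𝕜) x f D hbi hfD
      exact ⟨P, h, max C' D', h0, h1, h2, h3, h4, fun n => (h5 n).trans (le_max_right _ _),
        fun p hp => ⟨(h6 p hp).1.trans (le_max_left _ _), (h6 p hp).2.trans (le_max_left _ _)⟩,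
        h7, fun hh => absurd hfin hh⟩
    · obtain ⟨P, h, h0, h1, h2, h3, h4, h5, h6, h7⟩ :=
        Pool.Agent.MinExt.main_inf (𝕜 := 𝕜) x f D hbi hfD (fun T hT =>
          hfin (Pool.Agent.MinExt.finite_quotient x T hT))
      have hD0 : 0 ≤ D := (norm_nonneg _).trans (hfD 0)
      refine ⟨P, h, 24 * D + 41, h0, h1, h2, h3, h4, fun n => (h5 n).trans (by linarith),
        fun p hp => ⟨(h6 p hp).1.trans (by linarith), (h6 p hp).2.trans (by linarith)⟩,
        h7, fun _ => ⟨fun n => (h5 n).trans (by linarith), h6⟩⟩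
  obtain ⟨P, h, B, hPc, h1, h2, h3, h4, h5, h6, h7, h8⟩ := key
  have : Countable P := hPc.to_subtype
  obtain ⟨e⟩ : Nonempty ((ℕ ⊕ P) ≃ ℕ) := nonempty_equiv_of_countable
  set w : ℕ ⊕ P → E := Sum.elim x (fun p => p.1.1) with hw
  set G : ℕ ⊕ P → E →L[𝕜] 𝕜 := Sum.elim h (fun p => p.1.2) with hG
  have hGw : ∀ s t, G s (w t) = if s = t then 1 else 0 := by
    rintro (i | p) (j | q)
    · simp only [hG, hw, Sum.elim_inl, h1 i j, Sum.inl.injEq]
    · simp only [hG, hw, Sum.elim_inl, Sum.elim_inr]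
      rw [if_neg (by simp)]
      exact (h2 i q.1 q.2).1
    · simp only [hG, hw, Sum.elim_inl, Sum.elim_inr]
      rw [if_neg (by simp)]
      exact (h2 j p.1 p.2).2
    · simp only [hG, hw, Sum.elim_inr, Sum.inr.injEq]
      by_cases hpq : p = q
      · rw [if_pos hpq, ← hpq]
        exact h3 p.1 p.2
      · rw [if_neg hpq]
        exact h4 p.1 p.2 q.1 q.2 (fun hh => hpq (Subtype.ext hh))
  have hbio : ∀ i j : ℕ, G (e.symm i) (w (e.symm j)) = if i = j then 1 else 0 := by
    intro i j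
    rw [hGw]
    by_cases hij : i = j
    · rw [if_pos hij, if_pos (by rw [hij])]
    · rw [if_neg hij, if_neg (fun hh => hij (e.symm.injective hh))]
  have hout : ∀ m : ℕ, m ∉ Set.range (fun n : ℕ => e (Sum.inl n)) →
      ∃ p : P, e.symm m = Sum.inr p := by
    intro m hm
    rcases hs : e.symm m with n | p
    · exact absurd ⟨n, by simp only [← hs, Equiv.apply_symm_apply]⟩ hm
    · exact ⟨p, rfl⟩
  refine ⟨fun m => w (e.symm m), fun n => e (Sum.inl n), fun m => G (e.symm m), B,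
    ?_, ?_, ?_, ?_, hbio, ?_, ?_, ?_⟩
  · intro a b hab
    exact Sum.inl_injective (e.injective hab)
  · intro n
    simp only [Equiv.symm_apply_apply, hw, Sum.elim_inl]
  · intro n hn
    have hker : (Submodule.span 𝕜 ((fun m => w (e.symm m)) '' {k | k ≠ n})).topologicalClosure ≤
        LinearMap.ker (G (e.symm n)).toLinearMap := by
      apply Submodule.topologicalClosure_minimal
      · rw [Submodule.span_le]
        rintro _ ⟨k, hk, rfl⟩
        rw [SetLike.mem_coe, LinearMap.mem_ker]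
        change G (e.symm n) (w (e.symm k)) = 0
        rw [hbio, if_neg (fun hh => hk hh.symm)]
      · exact (G (e.symm n)).isClosed_ker
    have h9 := hker hn
    rw [LinearMap.mem_ker] at h9
    change G (e.symm n) (w (e.symm n)) = 0 at h9
    rw [hbio, if_pos rfl] at h9
    exact one_ne_zero h9
  · unfold closedSpan
    have hr : Set.range (fun m => w (e.symm m)) = Set.range x ∪ Prod.fst '' P := by
      have hr1 : Set.range (fun m => w (e.symm m)) = Set.range w := by
        ext v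
        constructor
        · rintro ⟨m, rfl⟩
          exact ⟨_, rfl⟩
        · rintro ⟨s, rfl⟩
          exact ⟨e s, by simp only [Equiv.symm_apply_apply]⟩
      rw [hr1, hw, Set.Sum.elim_range]
      congr 1
      ext v
      simp
    rw [hr]
    exact h7
  · intro m
    rcases hs : e.symm m with n | p
    · simp only [hs, hG, Sum.elim_inl]
      exact h5 n
    · simp only [hs, hG, Sum.elim_inr]
      exact (h6 p.1 p.2).2
  · intro m hm
    obtain ⟨p, hp⟩ := hout m hm
    simp only [hp, hw, Sum.elim_inr]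
    exact (h6 p.1 p.2).1
  · intro hinf
    obtain ⟨h10, h11⟩ := h8 hinf
    refine ⟨fun n => ?_, fun m hm => ?_⟩
    · simp only [Equiv.symm_apply_apply, hG, Sum.elim_inl]
      exact h10 n
    · obtain ⟨p, hp⟩ := hout m hm
      simp only [hp, hw, hG, Sum.elim_inr]
      exact h11 p.1 p.2

end Pool.Agent.Results.MP_49bdf6_an.SequenceExtension
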